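import Pool.Agent.H772R4.AltEval

set_option autoImplicit false

/-!
The free alternative ring on a set with at least six elements has an element of additive order 3, so
it is not a free abelian group.

The element is `tors x1 ... x6`, a combination of products `(a, b, c) ∘ [[x, y], z]` and
`(a, b, c) ∘ (x, y, z)` of degree 6. The equality `3 tors = 0` follows from the identity
`(x, y, z) ∘ [[x, y], x] = 0` of alternative rings, and `tors` does not vanish on the Grassmann
envelope of a finite superalgebra over the field with three elements.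
-/

namespace Pool.Agent.Results.MP_2692c1_al.ThreeTorsion

open Pool.Agent.H772R4.AltData Pool.Agent.H772R4.AltId Pool.Agent.H772R4.AltModel
open Pool.Agent.H772R4.AltEval Pool.Agent.H772R3.Ext
open Pool.Agent.H772R3.JordanModel (ξ Ξ Ξ_cons Ξ_nil Ξ_append Ξ_ne_zero)

/-- The free nonassociative ring on `X`. -/
abbrev FreeNA (X : Type) : Type := FreeNonUnitalNonAssocAlgebra ℤ X

/-- The associators `(f, f, g)` and `(g, f, f)` are to be `0`. -/
inductive AltRel (X : Type) : FreeNA X → FreeNA X → Prop
  | left (f g : FreeNA X) : AltRel X ((f * f) * g - f * (f * g)) 0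
  | right (f g : FreeNA X) : AltRel X ((g * f) * f - g * (f * f)) 0

/-- The free alternative ring on `X`: the quotient of the free nonassociative ring by the smallest
ring congruence for which all associators `(f, f, g)` and `(g, f, f)` are congruent to `0`. -/
def FreeAltRing (X : Type) : Type := (ringConGen (AltRel X)).Quotient

noncomputable instance (X : Type) : NonUnitalNonAssocRing (FreeAltRing X) :=
  inferInstanceAs (NonUnitalNonAssocRing (ringConGen (AltRel X)).Quotient)

/-- The quotient map. -/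
noncomputable def mk (X : Type) : FreeNA X →ₙ+* FreeAltRing X where
  toFun x := ((x : (ringConGen (AltRel X)).Quotient))
  map_mul' _ _ := rfl
  map_zero' := rfl
  map_add' _ _ := rfl

lemma mk_surj (X : Type) (x : FreeAltRing X) : ∃ y, mk X y = x := Quotient.exists_rep x

lemma mk_eq {X : Type} {x y : FreeNA X} (h : AltRel X x y) : mk X x = mk X y :=
  (RingCon.eq _).mpr (RingConGen.Rel.of _ _ h)

lemma alt_l {X : Type} (x y : FreeAltRing X) : (x * x) * y = x * (x * y) := by
  obtain ⟨f, rfl⟩ := mk_surj X x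
  obtain ⟨g, rfl⟩ := mk_surj X y
  have h := mk_eq (AltRel.left f g)
  rw [map_sub, map_mul, map_mul, map_mul, map_mul, map_zero] at h
  exact sub_eq_zero.mp h

lemma alt_r {X : Type} (x y : FreeAltRing X) : (y * x) * x = y * (x * x) := by
  obtain ⟨f, rfl⟩ := mk_surj X x
  obtain ⟨g, rfl⟩ := mk_surj X y
  have h := mk_eq (AltRel.right f g)
  rw [map_sub, map_mul, map_mul, map_mul, map_mul, map_zero] at h
  exact sub_eq_zero.mp h

/-- A polynomial which does not vanish on some alternative ring is nonzero in the free alternative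
ring. -/
lemma mk_ne_zero {X : Type} (f : FreeNA X →ₙ+* E) {x : FreeNA X} (h : f x ≠ 0) : mk X x ≠ 0 := by
  intro h0
  apply h
  let c : RingCon (FreeNA X) :=
    { r := fun x y => f x = f y
      iseqv := ⟨fun _ => rfl, fun h => h.symm, fun h h' => h.trans h'⟩
      add' := fun {w x y z} h h' => by
        rw [map_add, map_add]
        exact congrArg₂ _ h h'
      mul' := fun {w x y z} h h' => by
        rw [map_mul, map_mul]
        exact congrArg₂ _ h h' }
  have hle : ringConGen (AltRel X) ≤ c := by
    rw [RingCon.ringConGen_le]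
    intro a b hab
    change f a = f b
    cases hab with
    | left f' g =>
      rw [map_sub, map_mul, map_mul, map_mul, map_mul, map_zero, alt_left, sub_self]
    | right f' g =>
      rw [map_sub, map_mul, map_mul, map_mul, map_mul, map_zero, alt_right, sub_self]
  have h1 : ringConGen (AltRel X) x 0 := (RingCon.eq _).mp h0
  have h2 : f x = f 0 := hle h1
  rw [h2, map_zero]

lemma single_mem {i : ℕ} (hi : i < 102) {w : List ℕ} (hw : (Ξ w : Lm) ∈ H i) :
    den [(i, 1, w)] ∈ Env := by
  rw [den_cons, den_nil, add_zero]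
  exact AddSubgroup.subset_closure ⟨i, hi, 1 • Ξ w, by rw [one_smul]; exact hw, rfl⟩

lemma odd_mem {i : ℕ} (hi : pr i = 1) (k : ℕ) : (Ξ [k] : Lm) ∈ H i := by
  rw [H, if_neg (by omega), Ξ_cons, Ξ_nil, mul_one]
  exact CliffordAlgebra.ι_mem_evenOdd_one _ _

lemma even_mem {i : ℕ} (hi : pr i = 0) : (Ξ [] : Lm) ∈ H i := by
  rw [H, if_pos hi, Ξ_nil]
  have := algebraMap_even (F := ZMod 3) (V := Pool.Agent.H772R3.JordanModel.V (ZMod 3)) 1
  rwa [map_one] at this

/-- six elements of the model -/
noncomputable def Y : ℕ → E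
  | 0 => ⟨den (X 0), single_mem (by norm_num) (odd_mem (by decide) 0)⟩
  | 1 => ⟨den (X 1), single_mem (by norm_num) (odd_mem (by decide) 1)⟩
  | 2 => ⟨den (X 2), single_mem (by norm_num) (odd_mem (by decide) 2)⟩
  | 3 => ⟨den (X 3), single_mem (by norm_num) (odd_mem (by decide) 3)⟩
  | 4 => ⟨den (X 4), single_mem (by norm_num) (odd_mem (by decide) 4)⟩
  | _ => ⟨den (X 5), single_mem (by norm_num) (even_mem (by decide))⟩

lemma tors_Y : tors (Y 0) (Y 1) (Y 2) (Y 3) (Y 4) (Y 5) ≠ 0 := by
  intro h
  have h1 := congrArg incHom h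
  rw [map_tors, map_zero] at h1
  have h2 : tors (incHom (Y 0)) (incHom (Y 1)) (incHom (Y 2)) (incHom (Y 3)) (incHom (Y 4))
      (incHom (Y 5)) = den (ntors (X 0) (X 1) (X 2) (X 3) (X 4) (X 5)) := (den_ntors _ _ _ _ _ _).symm
  rw [h2] at h1
  have h3 := congrArg (co 101) h1
  rw [co_den 101 [0, 1, 2, 3, 4] _ check1, map_zero] at h3
  have h4 := check2
  set n := coefW 101 (ntors (X 0) (X 1) (X 2) (X 3) (X 4) (X 5))
  have h5 : n • (Ξ [0, 1, 2, 3, 4] : Lm) = Ξ [0, 1, 2, 3, 4] := by
    have : n = 1 + 3 * (n / 3) := by omega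
    rw [this, add_smul, one_smul, mul_smul, three_smul, add_zero]
  rw [h5] at h3
  exact Ξ_ne_zero (by decide) h3

theorem result (X : Type) (e : Fin 6 → X) (he : Function.Injective e) :
    (∃ f : FreeAltRing X, f ≠ 0 ∧ (3 : ℤ) • f = 0) ∧ ¬ Module.Free ℤ (FreeAltRing X) := by
  classical
  let v : Fin 6 → FreeNA X := fun i => FreeNonUnitalNonAssocAlgebra.of ℤ (e i)
  let t : FreeNA X := tors (v 0) (v 1) (v 2) (v 3) (v 4) (v 5)
  have ht : mk X t ≠ 0 := by
    let g : X → E := fun x => if h : ∃ i, e i = x then Y (h.choose : ℕ) else 0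
    have hg : ∀ i : Fin 6, g (e i) = Y i := by
      intro i
      have h : ∃ j, e j = e i := ⟨i, rfl⟩
      have h2 : h.choose = i := he h.choose_spec
      change (if h : ∃ j, e j = e i then Y (h.choose : ℕ) else 0) = _
      rw [dif_pos h, h2]
    let F : FreeNA X →ₙ+* E :=
      (FreeNonUnitalNonAssocAlgebra.lift ℤ g : FreeNA X →ₙₐ[ℤ] E)
    have hF : ∀ i : Fin 6, F (v i) = Y i := by
      intro i
      rw [← hg i]
      exact FreeNonUnitalNonAssocAlgebra.lift_of_apply ℤ g (e i)
    apply mk_ne_zero F
    rw [map_tors, hF, hF, hF, hF, hF, hF]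
    exact tors_Y
  have h3 : (3 : ℤ) • mk X t = 0 := by
    rw [map_tors]
    exact three_tors alt_l alt_r _ _ _ _ _ _
  refine ⟨⟨mk X t, ht, h3⟩, fun hfree => ?_⟩
  let b := Module.Free.chooseBasis ℤ (FreeAltRing X)
  apply ht
  apply b.repr.injective
  ext i
  have h4 := congrArg (fun z => b.repr z i) h3
  simp only [map_smul, map_zero, Finsupp.smul_apply, Finsupp.zero_apply, smul_eq_mul] at h4
  rw [map_zero, Finsupp.zero_apply]
  omega

end Pool.Agent.Results.MP_2692c1_al.ThreeTorsion
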